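import Pool.Agent.KS6_17.PRM.Central
import Pool.Graph.R_seed8.Results.MP_7406cc_gt.SplittingNumber

/-!
# MP_7406cc_gt: pseudoradial locally minimal groups and the splitting number

The problem asks whether pseudoradial minimal abelian groups are metrizable. We show that the
answer is the same, namely yes if and only if the splitting number is `ℵ₁`, for compact abelian
groups, for minimal abelian groups, for locally minimal abelian groups, and for all closed central
subgroups (in particular the centres) of arbitrary, not necessarily commutative, locally minimal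
pseudoradial groups. If the continuum is at most `κ⁺`, these subgroups have character at most `κ`.
-/

set_option autoImplicit false

open Filter Topology Set

namespace Pool.Agent.Results.MP_7406cc_gt.CentresOfLocallyMinimal

/-- There is no Hausdorff group topology on `G` strictly coarser than the given one. -/
def Minimal (G : Type) [Group G] [τ : TopologicalSpace G] : Prop :=
  ∀ σ : TopologicalSpace G, τ ≤ σ → @IsTopologicalGroup G σ _ → @T2Space G σ → σ = τ

/-- Some neighbourhood `U` of `1` is not a neighbourhood of `1` for any Hausdorff group topology on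
`G` strictly coarser than the given one. -/
def LocallyMinimal (G : Type) [Group G] [τ : TopologicalSpace G] : Prop :=
  ∃ U ∈ 𝓝 (1 : G), ∀ σ : TopologicalSpace G, @IsTopologicalGroup G σ _ → @T2Space G σ → τ ≤ σ →
    U ∈ @nhds G σ 1 → σ = τ

/-- Every non-closed set `A` contains a transfinite sequence converging to a point outside `A`. -/
def Pseudoradial (G : Type) [TopologicalSpace G] : Prop :=
  ∀ A : Set G, ¬ IsClosed A →
    ∃ (ι : Type) (_ : LinearOrder ι), WellFoundedLT ι ∧ Nonempty ι ∧
      ∃ (x : ι → G) (p : G), (∀ i, x i ∈ A) ∧ p ∉ A ∧ Tendsto x atTop (𝓝 p)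

/-- A well-ordered set of type `ω₁`. -/
abbrev W : Type := (Cardinal.aleph 1).ord.ToType

/-- There is a splitting family of `ℵ₁` subsets of `ℕ`; that is, the splitting number `𝔰` is
`ℵ₁`. -/
def SplittingFamilyAleph1 : Prop :=
  ∃ A : W → Set ℕ, ∀ M : Set ℕ, M.Infinite → ∃ w, (M ∩ A w).Infinite ∧ (M \ A w).Infinite

/-- **Main theorem.** (1) The following are equivalent: the splitting number is `ℵ₁`; all closed
central subgroups of locally minimal pseudoradial groups are metrizable; all locally minimal
pseudoradial abelian groups are metrizable; all minimal pseudoradial abelian groups are metrizable;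
all compact pseudoradial abelian groups are metrizable. (2) If `𝔠 ≤ κ⁺`, every closed central
subgroup of a locally minimal pseudoradial group has a base of at most `κ` neighbourhoods of the
unit. -/
theorem result :
    List.TFAE [
      SplittingFamilyAleph1,
      ∀ (G : Type) [Group G] [TopologicalSpace G] [IsTopologicalGroup G] [T2Space G],
        LocallyMinimal G → Pseudoradial G → ∀ C : Subgroup G, IsClosed (C : Set G) →
          C ≤ Subgroup.center G → TopologicalSpace.MetrizableSpace C,
      ∀ (G : Type) [CommGroup G] [TopologicalSpace G] [IsTopologicalGroup G] [T2Space G],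
        LocallyMinimal G → Pseudoradial G → TopologicalSpace.MetrizableSpace G,
      ∀ (G : Type) [CommGroup G] [TopologicalSpace G] [IsTopologicalGroup G] [T2Space G],
        Minimal G → Pseudoradial G → TopologicalSpace.MetrizableSpace G,
      ∀ (G : Type) [CommGroup G] [TopologicalSpace G] [IsTopologicalGroup G] [T2Space G],
        CompactSpace G → Pseudoradial G → TopologicalSpace.MetrizableSpace G] ∧
    ∀ κ : Cardinal, Cardinal.aleph0 ≤ κ → Cardinal.continuum ≤ Order.succ κ →
      ∀ (G : Type) [Group G] [TopologicalSpace G] [IsTopologicalGroup G] [T2Space G],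
        LocallyMinimal G → Pseudoradial G → ∀ C : Subgroup G, IsClosed (C : Set G) →
          C ≤ Subgroup.center G → ∃ 𝓑 : Set (Set C),
            (𝓝 (1 : C)).HasBasis (fun s => s ∈ 𝓑) id ∧ Cardinal.mk 𝓑 ≤ κ := by
  have hSC : SeqCompactSpace (W → Bool) ↔ H162R3.PR.SC W := by
    constructor
    · intro h y
      obtain ⟨a, -, φ, hφ, ha⟩ := h.isSeqCompact_univ (x := y) (fun n => mem_univ _)
      exact ⟨φ, hφ, a, ha⟩
    · intro h
      refine ⟨?_⟩
      intro y _
      obtain ⟨φ, hφ, a, ha⟩ := h y
      exact ⟨a, mem_univ _, φ, hφ, ha⟩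
  have hsplit : H162R3.PR.SC W ↔ ¬ SplittingFamilyAleph1 :=
    hSC.symm.trans MP_7406cc_gt.SplittingNumber.result.2
  refine ⟨?_, fun κ hκ hc G _ _ _ _ ⟨U, u1, u2⟩ hP C hC hz =>
    KS6_17.PRM.central hκ (KS6_17.PRM.fewChar_of_le hκ hc) u1 u2 hP C hC hz⟩
  tfae_have 1 → 2 := by
    intro hs G _ _ _ _ ⟨U, u1, u2⟩ hP C hC hz
    exact KS6_17.PRM.metrizable_of (KS6_17.PRM.central le_rfl
      (KS6_17.PRM.fewChar_of_split fun h => hsplit.1 h hs) u1 u2 hP C hC hz)
  tfae_have 2 → 3 := by
    intro h G _ _ _ _ hM hP
    have h1 := h G hM hP ⊤ isClosed_univ (fun x _ => Subgroup.mem_center_iff.2 fun g => mul_comm g x)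
    have h2 : TopologicalSpace.MetrizableSpace (univ : Set G) := h1
    exact (Homeomorph.Set.univ G).symm.isEmbedding.metrizableSpace
  tfae_have 3 → 4 := by
    intro h G _ _ _ _ hM hP
    exact h G ⟨univ, univ_mem, fun σ h1 h2 h3 _ => hM σ h3 h1 h2⟩ hP
  tfae_have 4 → 5 := by
    intro h G _ _ _ _ hK hP
    refine h G (fun σ h1 _ h3 => ?_) hP
    exact KS6_17.PRM.cmin _ σ hK h1 h3
  tfae_have 5 → 1 := by
    intro h
    by_contra hs
    have hS := hsplit.2 hs
    exact H162R3.PR.cube_not_metrizable (h (Multiplicative (W → ZMod 2)) inferInstance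
      (H162R3.PR.pseudoRadial_cube hS))
  tfae_finish

end Pool.Agent.Results.MP_7406cc_gt.CentresOfLocallyMinimal
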